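import Pool.Agent.Y667.QK.Stm
import Pool.Agent.Y285.RZ.CVZ

/-!
# Project QK, job CVT: from pairs to curves, uniformly in the twist
-/

set_option autoImplicit false

namespace Pool.Agent.Y697.QK

open Finset Pool.Agent.W262.RK Pool.Agent.W307.RT Pool.Agent.W307.RS Pool.Agent.W307.SE
  Pool.Agent.W307.FK Pool.Agent.Y667.RP Pool.Agent.Y667.RZ Pool.Agent.Y667.QK
open Pool.Agent.Y285.RP Pool.Agent.Y285.RZ

lemma cct1 (τ a b k : ℤ) : (cc (τ * a) (τ * b) (τ * k)).1 = τ ^ 2 * (cc a b k).1 := by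
  unfold cc; ring

lemma cct2 (τ a b k : ℤ) : (cc (τ * a) (τ * b) (τ * k)).2 = τ ^ 3 * (cc a b k).2 := by
  unfold cc; ring

lemma mnt {a b k : ℤ} (h : a + b = 3 * k) (hc : IsCoprime a b) {τ : ℕ} (hτ : Squarefree τ) :
    Mn (cc ((τ : ℤ) * a) ((τ : ℤ) * b) ((τ : ℤ) * k)) := by
  intro p hp hh
  rw [cct1, cct2] at hh
  obtain ⟨h1, h2⟩ := hh
  have hp0 : (p : ℤ) ≠ 0 := by exact_mod_cast hp.ne_zero
  by_cases hpτ : p ∣ τ
  · obtain ⟨u, rfl⟩ := hpτ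
    have hpu : ¬ p ∣ u := by
      rintro ⟨v, rfl⟩
      have h3 : p * p ∣ p * (p * v) := ⟨v, by ring⟩
      exact hp.one_lt.ne' (Nat.isUnit_iff.1 (hτ p h3))
    have hcop : IsCoprime (p : ℤ) (u : ℤ) :=
      Nat.isCoprime_iff_coprime.2 ((Nat.Prime.coprime_iff_not_dvd hp).2 hpu)
    have e1 : (p : ℤ) ∣ (cc a b k).1 := by
      obtain ⟨r, hr⟩ := h1
      have h3 : (p : ℤ) ^ 2 * ((p : ℤ) ^ 2 * r) = (p : ℤ) ^ 2 * ((u : ℤ) ^ 2 * (cc a b k).1) := by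
        push_cast at hr
        linear_combination -hr
      have h4 := mul_left_cancel₀ (pow_ne_zero 2 hp0) h3
      have h5 : (p : ℤ) ∣ (u : ℤ) ^ 2 * (cc a b k).1 := by
        rw [← h4]
        exact (dvd_pow_self _ (by norm_num)).mul_right _
      exact (hcop.pow_right (n := 2)).dvd_of_dvd_mul_left h5
    have e2 : (p : ℤ) ∣ (cc a b k).2 := by
      obtain ⟨r, hr⟩ := h2
      have h3 : (p : ℤ) ^ 3 * ((p : ℤ) ^ 3 * r) = (p : ℤ) ^ 3 * ((u : ℤ) ^ 3 * (cc a b k).2) := by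
        push_cast at hr
        linear_combination -hr
      have h4 := mul_left_cancel₀ (pow_ne_zero 3 hp0) h3
      have h5 : (p : ℤ) ∣ (u : ℤ) ^ 3 * (cc a b k).2 := by
        rw [← h4]
        exact (dvd_pow_self _ (by norm_num)).mul_right _
      exact (hcop.pow_right (n := 3)).dvd_of_dvd_mul_left h5
    exact cc_min h hc hp e1 e2
  · have hcop : IsCoprime (p : ℤ) (τ : ℤ) :=
      Nat.isCoprime_iff_coprime.2 ((Nat.Prime.coprime_iff_not_dvd hp).2 hpτ)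
    have h3 : (p : ℤ) ∣ (cc a b k).1 :=
      (hcop.pow_right (n := 2)).dvd_of_dvd_mul_left ((dvd_pow_self _ (by norm_num)).trans h1)
    have h4 : (p : ℤ) ∣ (cc a b k).2 :=
      (hcop.pow_right (n := 3)).dvd_of_dvd_mul_left ((dvd_pow_self _ (by norm_num)).trans h2)
    exact cc_min h hc hp h3 h4

lemma factsB {X : ℕ} {t : ℕ × ℕ} (ht : BP X t) :
    (t.1 : ℤ) + t.2 = 3 * (((t.1 + t.2) / 3 : ℕ) : ℤ) ∧ (1 : ℤ) ≤ t.2 ∧ (t.2 : ℤ) < t.1 ∧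
      (t.1 : ℤ) ≤ X ∧ IsCoprime (t.1 : ℤ) (t.2 : ℤ) := by
  obtain ⟨g3, g4, g5, g6, g7, g8, g11⟩ := ht
  exact ⟨by omega, by omega, by omega, by omega, Nat.isCoprime_iff_coprime.2 g11⟩

/-- the choice of the size and the number of all curves -/
lemma size_exists (τ0 X0 H : ℕ) (hτ : 0 < τ0) (hH : 64 * (τ0 * max X0 1) ^ 6 ≤ H) :
    ∃ X : ℕ, X0 ≤ X ∧ 1 ≤ X ∧ 64 * (τ0 * X) ^ 6 ≤ H ∧
      (Cv 2 H).card ≤ (17 * τ0) ^ 2 * X ^ 2 := by
  have hself : ∀ n : ℕ, n ≤ (τ0 * n) ^ 6 := fun n =>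
    (Nat.le_mul_of_pos_left n hτ).trans (Nat.le_self_pow (by norm_num) _)
  have hex : ∃ X : ℕ, max X0 1 ≤ X ∧ 64 * (τ0 * X) ^ 6 ≤ H ∧ H < 64 * (τ0 * (X + 1)) ^ 6 := by
    set P : ℕ → Prop := fun X => 64 * (τ0 * X) ^ 6 ≤ H with hP
    have hle : max X0 1 ≤ H := by
      have h1 := hself (max X0 1)
      omega
    refine ⟨Nat.findGreatest P H, Nat.le_findGreatest hle hH, ?_, ?_⟩
    · exact Nat.findGreatest_spec (P := P) hle hH
    · by_contra hlt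
      push Not at hlt
      have h2 : Nat.findGreatest P H + 1 ≤ H := by
        have h1 := hself (Nat.findGreatest P H + 1)
        omega
      exact Nat.findGreatest_is_greatest (P := P) (Nat.lt_succ_self _) h2 hlt
  obtain ⟨X, hX1, hX2, hX3⟩ := hex
  have hXX0 : X0 ≤ X := (le_max_left _ _).trans hX1
  have hX11 : 1 ≤ X := (le_max_right _ _).trans hX1
  have h2 : (Cv 2 H).card ≤ (4 * (2 * (τ0 * (X + 1))) + 1) ^ 2 := by
    apply cv_card _ _ (by nlinarith)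
    have : (2 * (τ0 * (X + 1))) ^ 6 = 64 * (τ0 * (X + 1)) ^ 6 := by ring
    omega
  refine ⟨X, hXX0, hX11, hX2, h2.trans ?_⟩
  have h4 : 4 * (2 * (τ0 * (X + 1))) + 1 ≤ 17 * τ0 * X := by nlinarith
  calc (4 * (2 * (τ0 * (X + 1))) + 1) ^ 2 ≤ (17 * τ0 * X) ^ 2 := by gcongr
    _ = (17 * τ0) ^ 2 * X ^ 2 := by ring

theorem CVT : St_CVT := by
  classical
  intro τ0 hτ0
  refine ⟨((17 * τ0 : ℕ) : ℝ) ^ 2, by positivity, fun X0 => ⟨64 * (τ0 * max X0 1) ^ 6, ?_⟩⟩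
  intro H hH
  obtain ⟨X, hXX0, hX1, hX2, h3⟩ := size_exists τ0 X0 H hτ0 hH
  refine ⟨X, hXX0, hX1, by exact_mod_cast h3, ?_⟩
  intro τ G P hτp hτ hsq hB hG
  have hτI : (0 : ℤ) < τ := by exact_mod_cast hτp
  have hX4 : 64 * (τ * X) ^ 6 ≤ H := by
    refine le_trans ?_ hX2
    gcongr
  apply card_le_card_of_injOn
    (fun t => cc ((τ : ℤ) * (t.1 : ℤ)) ((τ : ℤ) * (t.2 : ℤ)) ((τ : ℤ) * (((t.1 + t.2) / 3 : ℕ) : ℤ)))
  · intro t ht
    rw [mem_coe] at ht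
    obtain ⟨f1, f2, f3, f4, f5⟩ := factsB (hB t ht)
    have q1 : (τ : ℤ) * (t.1 : ℤ) + (τ : ℤ) * t.2 =
        3 * ((τ : ℤ) * (((t.1 + t.2) / 3 : ℕ) : ℤ)) := by
      linear_combination (τ : ℤ) * f1
    have hm := cc_mem' (X := τ * X) q1 (by nlinarith) (by nlinarith)
      (by push_cast; nlinarith) (mnt f1 f5 hsq) hX4
    rw [mem_coe, mem_filter]
    exact ⟨hm, hG t ht _ f1⟩
  · intro t ht t' ht' he
    rw [mem_coe] at ht ht'
    obtain ⟨f1, f2, f3, -⟩ := factsB (hB t ht)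
    obtain ⟨f1', f2', f3', -⟩ := factsB (hB t' ht')
    have q1 : (τ : ℤ) * (t.1 : ℤ) + (τ : ℤ) * t.2 =
        3 * ((τ : ℤ) * (((t.1 + t.2) / 3 : ℕ) : ℤ)) := by
      linear_combination (τ : ℤ) * f1
    have q1' : (τ : ℤ) * (t'.1 : ℤ) + (τ : ℤ) * t'.2 =
        3 * ((τ : ℤ) * (((t'.1 + t'.2) / 3 : ℕ) : ℤ)) := by
      linear_combination (τ : ℤ) * f1'
    obtain ⟨r1, r2⟩ := cc_inj q1 q1' (by nlinarith) (by nlinarith) (by nlinarith) (by nlinarith) he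
    have r1' : (t.1 : ℤ) = t'.1 := mul_left_cancel₀ hτI.ne' r1
    have r2' : (t.2 : ℤ) = t'.2 := mul_left_cancel₀ hτI.ne' r2
    exact Prod.ext (by exact_mod_cast r1') (by exact_mod_cast r2')

end Pool.Agent.Y697.QK
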